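import Mathlib
import Pool.Agent.H.MP_3080d1_gt.C

open scoped ContDiff Topology
open Filter Set Pool.Agent.H.MP_3080d1_gt

namespace Pool.Agent.Results.MP_3080d1_gt.NoFocus

variable {g : ℝ → ℂ} {x y : ℂ} {L : ℝ}

theorem real_of_vis (h : Fam g x y L) (hF : Focus g x y) {a : ℝ} (v : Seg g x (g a)) :
    ∃ b, Real g x y a b := by
  obtain ⟨s, -, t, -, h1, h2⟩ := h.cv.real hF (uu_norm h.hx a)
  exact ⟨t, h.cv.real_congr (h2.1.eq v (nn_uu h.hx s) (h1 ▸ nn_uu h.hx a) (nn_pos h.hx s)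
    (nn_pos h.hx a)) rfl h2⟩

theorem lim (h : Fam g x y L) (hF : Focus g x y) {a : ℝ} (v : Seg g x (g a)) :
    ∃ t, Acc g x y L a t ∧ ∀ c k : ℝ, 0 < k → k < 1 → g c = g a + k • (g t - g a) →
      cr (g t - g a) (deriv g c) = 0 := by
  have hg := h.cv
  choose s t h1 h2 s' h3 h4 using fun n : ℕ =>
    hg.dens h.hx h.hy hF a (1 / ((n : ℝ) + 1)) (by positivity)
  have ac : ∀ n, Acc g x y L (s n) (t n) := fun n => by
    obtain ⟨L', k1, k2⟩ := hg.good h.hx h.hy (h1 n) (h2 n)
    rwa [le_antisymm (k1.le h) (h.le k1)]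
  obtain ⟨⟨s0, t0⟩, -, φ, hφ, h0⟩ := (isCompact_Icc.prod isCompact_Icc).tendsto_subseq
    (x := fun n => (s n, t n)) fun n => ⟨(h1 n).1, (h1 n).2.1⟩
  have ts : Tendsto (s ∘ φ) atTop (𝓝 s0) := (continuous_fst.tendsto _).comp h0
  have tt : Tendsto (t ∘ φ) atTop (𝓝 t0) := (continuous_snd.tendsto _).comp h0
  have ts' : Tendsto (s' ∘ φ) atTop (𝓝 a) := by
    refine Tendsto.comp ?_ hφ.tendsto_atTop
    rw [tendsto_iff_dist_tendsto_zero]
    exact squeeze_zero (fun _ => dist_nonneg) (fun n => (h3 n).le)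
      tendsto_one_div_add_atTop_nhds_zero_nat
  have e1 : uu g x s0 = uu g x a := tendsto_nhds_unique_of_eventuallyEq
    ((hg.cd_uu h.hx s0).continuousAt.tendsto.comp ts)
    ((hg.cd_uu h.hx a).continuousAt.tendsto.comp ts') (Eventually.of_forall fun n => h4 _)
  have e2 : nn g x s0 ≤ nn g x a := le_of_tendsto_of_tendsto'
    ((hg.cd_nn h.hx s0).continuousAt.tendsto.comp ts)
    ((hg.cd_nn h.hx a).continuousAt.tendsto.comp ts') fun n =>
      (h1 _).2.2.1.1.le (nn_uu h.hx (s (φ n))) (a := s' (φ n))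
        (by rw [h4]; exact nn_uu h.hx _) (nn_pos h.hx _)
  have e3 : nn g x a ≤ nn g x s0 := v.le (nn_uu h.hx a) (e1 ▸ nn_uu h.hx s0) (nn_pos h.hx _)
  have e : g s0 = g a := by rw [nn_uu h.hx s0, nn_uu h.hx a, e1, le_antisymm e2 e3]
  refine ⟨t0, hg.acc_congr e rfl
    (acc_closed.mem_of_tendsto h0 (Eventually.of_forall fun n => ac _)), fun c k k0 k1 hc => ?_⟩
  by_contra h5
  have : Tendsto (fun n => (g (s (φ n)), g (t (φ n)))) atTop (𝓝 (g a, g t0)) :=
    (e ▸ (hg.cont.tendsto s0).comp ts :).prodMk_nhds ((hg.cont.tendsto t0).comp tt)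
  obtain ⟨n, hn⟩ := (this.eventually (hg.cross k0 k1 hc h5)).exists
  exact hn (h1 _).2.2.1.2.2.1

theorem cmp (h : Fam g x y L) (hF : Focus g x y) {a b : ℝ} (r : Real g x y a b) :
    Acc g x y L a b ∨ ∃ t ρ0 ρ : ℝ, Acc g x y L a t ∧ 0 < ρ0 ∧ ρ0 < ρ ∧
      g b = g a + ρ0 • vv g x a ∧ g t = g a + ρ • vv g x a ∧ cr (deriv g b) (vv g x a) = 0 := by
  obtain ⟨t, h1, h2⟩ := lim h hF r.1
  obtain ⟨-, ⟨ρ0, p0, e0⟩, k, -⟩ := r
  have e := (h.rel h1).1
  have p := h.pos h1
  rcases (k.le e0 e p).lt_or_eq with l | l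
  · refine Or.inr ⟨t, ρ0, _, h1, p0, l, e0, e, ?_⟩
    have := h2 b (ρ0 / (L - nn g x a - nn g y t)) (by positivity) ((div_lt_one p).2 l) (by
      rw [e0]; nth_rewrite 1 [e]; rw [add_sub_cancel_left, smul_smul, div_mul_cancel₀ _ p.ne'])
    nth_rewrite 1 [e] at this
    apply mul_left_cancel₀ p.ne'
    simp only [add_sub_cancel_left, cr, Complex.smul_re, Complex.smul_im, smul_eq_mul] at this ⊢
    linear_combination -this
  · exact Or.inl (h.cv.acc_congr rfl (by rw [e, e0, l]) h1)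

theorem ng (h : Fam g x y L) (hF : Focus g x y) {a : ℝ} (v : Seg g x (g a)) : ¬Gz g x a := by
  intro z
  have hg := h.cv
  have z1 := (hg.gz a).1 z
  obtain ⟨b, r⟩ := real_of_vis h hF v
  obtain ⟨t', a'⟩ := h.total b
  have key : ∀ ρ : ℝ, 0 < ρ → g b = g a + ρ • vv g x a →
      nn g x b = nn g x a + ρ ∧ uu g x b = uu g x a := fun ρ p e =>
    uu_of (uu_norm h.hx a) (add_pos (nn_pos h.hx a) p) (by
      rw [e, z1, add_smul, ← add_assoc, ← nn_uu h.hx a])
  rcases cmp h hF r with c | ⟨t, ρ0, ρ, c, p0, -, e0, -, c0⟩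
  · obtain ⟨k1, k2⟩ := key _ (h.pos c) (h.rel c).1
    have k3 : vv g x b = -uu g y b := by
      have := r.2.2.2.1
      rw [vv, k2, ← z1, ← neg_neg (vv g x a), ← this, refl_neg, vv, refl_refl (hg.regular b)]
    have := r.2.2.2.2.le (u := vv g x b) (r' := nn g y b)
      (by rw [k3]; linear_combination (norm := module) -nn_uu h.hy b) (h.rel a').1 (h.pos a')
    linarith [nn_pos h.hy t']
  · obtain ⟨k1, k2⟩ := key _ p0 e0
    have k3 : vv g x b = vv g x a := by
      rw [(hg.gz b).1 (by rwa [Gz, k2, ← z1]), k2, z1]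
    have w : WW g x L a = x + L • uu g x a := by
      rw [WW, z1]; linear_combination (norm := module) nn_uu h.hx a
    have w' : WW g x L b = WW g x L a := by
      rw [WW, WW, k3, k1, e0]; module
    have := hg.uniq h.hx h.hy (h.rel c) (h.rel a') w' k3 (by
      intro e
      have := h.hL
      rw [← e, w, sub_add_cancel_left, norm_neg, norm_smul, uu_norm h.hx, mul_one] at this
      exact absurd (Real.le_norm_self L) (not_le.2 this))
    have := (hg.congr (h.symm.func c.symm a'.symm this.symm) x).1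
    linarith

theorem vis (h : Fam g x y L) (hF : Focus g x y) (a : ℝ) : Seg g x (g a) := by
  have hg := h.cv
  have c : IsClosed {s | Seg g x (g s)} := by
    rw [← isOpen_compl_iff, isOpen_iff_mem_nhds]
    intro s hs
    obtain ⟨a, -, t, -, h1, h2⟩ := hg.real hF (uu_norm h.hx s)
    have p := nn_pos h.hx s
    have p' := nn_pos h.hx a
    have l := h2.1.le (nn_uu h.hx a) (h1 ▸ nn_uu h.hx s) p
    have e : g s - x = nn g x s • uu g x a := by
      rw [h1]; exact sub_eq_iff_eq_add'.2 (nn_uu h.hx s)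
    have l' : nn g x a < nn g x s := lt_of_le_of_ne l fun e => hs (by
      have : g s = g a := by rw [nn_uu h.hx s, nn_uu h.hx a, e, h1]
      rw [mem_ofPred_eq, this]; exact h2.1)
    have := hg.cross (p := x) (q := g s) (c := a) (div_pos p' p) ((div_lt_one p).2 l')
      (by rw [e, smul_smul, div_mul_cancel₀ _ p.ne', ← nn_uu h.hx a]) (by
        intro h0
        refine ng h hF h2.1 (mul_left_cancel₀ p.ne' ?_)
        simp only [e, cr, Complex.smul_re, Complex.smul_im, smul_eq_mul] at h0 ⊢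
        linear_combination -h0)
    exact (tendsto_const_nhds.prodMk_nhds (hg.cont.tendsto s)).eventually this
  have o : IsOpen {s | Seg g x (g s)} := by
    rw [← isClosed_compl_iff]
    refine IsSeqClosed.isClosed fun s s0 hs h0 v => ?_
    simp only [mem_compl_iff, mem_ofPred_eq, Seg, not_forall, not_not] at hs
    choose k k0 k1 c hc using hs
    obtain ⟨⟨c0, κ⟩, ⟨-, m⟩, φ, hφ, h1⟩ := (isCompact_Icc.prod isCompact_Icc).tendsto_subseq
      (x := fun n => (Int.fract (c n), k n)) fun n => ⟨fract_mem _, (k0 n).le, (k1 n).le⟩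
    have tc : Tendsto (fun n => Int.fract (c (φ n))) atTop (𝓝 c0) :=
      (continuous_fst.tendsto _).comp h1
    have tk : Tendsto (fun n => k (φ n)) atTop (𝓝 κ) := (continuous_snd.tendsto _).comp h1
    have ts : Tendsto (fun n => s (φ n)) atTop (𝓝 s0) := h0.comp hφ.tendsto_atTop
    have e : g c0 = x + κ • (g s0 - x) := tendsto_nhds_unique_of_eventuallyEq
      ((hg.cont.tendsto c0).comp tc)
      ((tk.smul (((hg.cont.tendsto s0).comp ts).sub_const x)).const_add x)
      (Eventually.of_forall fun n => (hg.fract _).trans (hc _))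
    have κ0 : κ ≠ 0 := by
      rintro rfl
      exact h.hx ⟨c0, by simpa using e⟩
    have κ1 : κ = 1 := by
      by_contra h2
      exact v κ (lt_of_le_of_ne m.1 κ0.symm) (lt_of_le_of_ne m.2 h2) ⟨c0, e⟩
    obtain ⟨j, hj⟩ := (hg.simple c0 s0).1 (by simpa [κ1] using e)
    obtain ⟨f, -, -, hf⟩ := ift (E := fun p : ℝ × ℝ => cr (g p.1 - x) (g p.2 - x)) (a := s0)
      (cd_cr (((hg.cd s0).comp (s0, s0) contDiffAt_fst).sub contDiffAt_const)
        (((hg.cd s0).comp (s0, s0) contDiffAt_snd).sub contDiffAt_const))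
      (hcr1 (g s0 - x) x (hg.hd s0)) (by
        intro h0
        refine ng h hF v ?_
        simp only [Gz, uu, cr, Complex.smul_re, Complex.smul_im, smul_eq_mul] at h0 ⊢
        linear_combination -(nn g x s0)⁻¹ * h0)
    have z : ∀ u : ℂ, cr u u = 0 := fun u => by simp only [cr]; ring
    simp only [z] at hf
    obtain ⟨n, n1, n2⟩ := (((ts.prodMk_nhds ts).eventually hf).and
      ((ts.prodMk_nhds (hj ▸ tc.add_const (j : ℝ) :)).eventually hf)).exists
    have e1 : g (Int.fract (c (φ n)) + j) = x + k (φ n) • (g (s (φ n)) - x) :=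
      (((hg.simple _ _).2 ⟨j, rfl⟩).symm.trans (hg.fract _)).trans (hc _)
    have e2 := n2.1 (by
      simp only [e1, add_sub_cancel_left, cr, Complex.smul_re, Complex.smul_im, smul_eq_mul]; ring)
    simp only at e2
    rw [← e2, n1.1 (z _)] at e1
    have e3 : (1 - k (φ n)) • (g (s (φ n)) - x) = 0 := by linear_combination (norm := module) e1
    rcases smul_eq_zero.1 e3 with e | e
    · linarith [k1 (φ n)]
    · exact h.hx ⟨_, sub_eq_zero.1 e⟩
  obtain ⟨s, -, t, -, -, h2⟩ := hg.real hF (norm_one (α := ℂ))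
  have := IsClopen.eq_univ ⟨c, o⟩ ⟨s, h2.1⟩
  exact (this ▸ mem_univ a :)

theorem eqv (h : Fam g x y L) (hF : Focus g x y) {a b : ℝ} (r : Real g x y a b) :
    Acc g x y L a b := by
  have hg := h.cv
  rcases cmp h hF r with c | ⟨t, ρ0, ρ, c, p0, l, e0, e, c0⟩
  · exact c
  exfalso
  obtain ⟨a', c'⟩ := h.symm.total b
  obtain ⟨b', r'⟩ := real_of_vis h hF (vis h hF a')
  have v : vv g x a' = vv g x a := by rw [(h.symm.rel c').2, r.2.2.2.1, neg_neg]
  have yy : ∀ a b, Real g x y a b → cr (deriv g b) (vv g x a) = 0 →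
      y = g b + nn g y b • vv g x a := by
    intro a b r c
    have : uu g y b = -vv g x a := by
      rw [← refl_refl (hg.regular b) (uu g y b), ← vv, r.2.2.2.1, refl_neg,
        (refl_eq (hg.regular b)).2 c]
    have e := nn_uu h.hy b
    rw [this] at e
    linear_combination (norm := module) -e
  rcases cmp h hF r' with d | ⟨t', σ0, σ, d, q0, l', f0, f, d0⟩
  · have e1 := real_inj (hg.real_congr rfl (h.func d c'.symm rfl) r') r
    have e2 := h.func c c'.symm e1
    rw [e, e0, add_right_inj, ← sub_eq_zero, ← sub_smul, smul_eq_zero] at e2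
    rcases e2 with e2 | e2
    · linarith
    · simpa [e2] using hg.vv_norm h.hx a
  · have y1 := yy a b r c0
    have y2 := yy a' b' r' d0
    rw [h.func d c'.symm rfl] at f
    have := r'.2.2.2.2.le y2 (a := b) (r := σ - σ0) (by rw [f, f0]; module) (by linarith)
    have e3 : (nn g y b' - (σ - σ0) - nn g y b) • vv g x a = 0 := by
      rw [v] at y2 f f0
      linear_combination (norm := module) y1 - y2 + f - f0
    rcases smul_eq_zero.1 e3 with e2 | e2
    · linarith [nn_pos h.hy b]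
    · simpa [e2] using hg.vv_norm h.hx a

theorem result (g : ℝ → ℂ) (hg : Curve g) (x y : ℂ) (hx : x ∉ range g) (hy : y ∉ range g)
    (hxy : x ≠ y) : ¬Focus g x y := by
  intro hF
  obtain ⟨s, t, h1, h2, -⟩ := hg.dens hx hy hF 0 1 one_pos
  obtain ⟨L, h, -⟩ := hg.good hx hy h1 h2
  have d : 0 < ‖x - y‖ := norm_pos_iff.2 (sub_ne_zero.2 hxy)
  set u := ‖x - y‖⁻¹ • (x - y) with hu
  have u1 : ‖u‖ = 1 := by
    rw [hu, norm_smul, norm_inv, norm_norm, inv_mul_cancel₀ d.ne']
  have u2 : x - y = ‖x - y‖ • u := by rw [hu, smul_inv_smul₀ d.ne']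
  clear_value u
  obtain ⟨a, -, b, -, e1, r⟩ := hg.real hF u1
  obtain ⟨k1, k2⟩ := uu_of (g := g) (p := y) (s := a) u1 (add_pos (nn_pos hx a) d) (by
    have := nn_uu hx a
    rw [e1] at this
    linear_combination (norm := module) this + u2)
  obtain ⟨a', c'⟩ := h.symm.total a
  obtain ⟨b', r'⟩ := real_of_vis h hF (vis h hF a')
  have r2 := hg.real_congr rfl (h.func (eqv h hF r') c'.symm rfl) r'
  have v : vv g y a = vv g x a := by rw [vv, vv, k2, e1]
  have c := eqv h hF r
  have e2 : g a' = g b := r2.2.2.1.symm.eq r.2.2.1 (v ▸ (h.symm.rel c').1) (h.rel c).1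
    (h.symm.pos c') (h.pos c)
  have e3 : uu g x b = uu g y b := by
    have : vv g x b = vv g y b := by
      rw [← (hg.congr e2 x).2.2, (h.symm.rel c').2, r.2.2.2.1, v]
    rw [← refl_refl (hg.regular b) (uu g x b), ← vv, this, vv, refl_refl (hg.regular b)]
  have e4 : nn g y b - nn g x b = ‖x - y‖ := by
    have f1 := (h.rel c).1
    have f2 := (h.symm.rel c').1
    rw [e2, f1, v, add_right_inj, ← sub_eq_zero, ← sub_smul, smul_eq_zero,
      (hg.congr e2 x).1] at f2
    rcases f2 with f2 | f2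
    · linarith
    · simpa [f2] using hg.vv_norm hx a
  have e5 : uu g x b = u := by
    apply smul_right_injective ℂ d.ne'
    have f1 := nn_uu hx b
    have f2 := nn_uu hy b
    rw [← e3] at f2
    simp only
    rw [← u2, ← e4]
    linear_combination (norm := module) f1 - f2
  have e6 := (vis h hF a).eq (vis h hF b) (nn_uu hx a) (by rw [e1, ← e5]; exact nn_uu hx b)
    (nn_pos hx a) (nn_pos hx b)
  have f1 := (h.rel c).1
  rw [← e6, left_eq_add, smul_eq_zero] at f1
  rcases f1 with f1 | f1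
  · exact (h.pos c).ne' f1
  · simpa [f1] using hg.vv_norm hx a

end Pool.Agent.Results.MP_3080d1_gt.NoFocus
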